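import Pool.Agent.L7h17.RS.Defs
import Pool.Agent.Helper523.LL.Pompeiu
import Pool.Agent.Helper897.ZS.Dbar1

set_option autoImplicit false

/-!
Compactly supported solutions of the `∂̄`-equation, and the identity theorem on cubes
(parts S_DBC and S_ID of project RS of helper17).
-/

open Set Filter Topology MeasureTheory Metric
open scoped ContDiff Convolution

noncomputable section

namespace Pool.Agent.L7h26.RS

open Pool.Agent.L7h17.RS
open Pool.Agent.Helper523.LL (dbar pompeiu_zero)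

variable {n : ℕ}

theorem locInt_inv : LocallyIntegrable (fun ζ : ℂ => ζ⁻¹) (volume : Measure ℂ) := by
  have h := MP8a09.locallyIntegrable_S.smul (2 * Real.pi * Complex.I : ℂ)
  refine h.congr (Eventually.of_forall fun ζ => ?_)
  show (2 * Real.pi * Complex.I : ℂ) • (2 * Real.pi * Complex.I * ζ)⁻¹ = ζ⁻¹
  have hne : (2 * Real.pi * Complex.I : ℂ) ≠ 0 := by
    simp [Real.pi_ne_zero]
  rw [mul_inv, smul_eq_mul, ← mul_assoc, mul_inv_cancel₀ hne, one_mul]

/-- the inclusion of a complex coordinate line -/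
def sg (i : Fin n) : ℂ →L[ℝ] EC n := ContinuousLinearMap.single ℝ (fun _ : Fin n => ℂ) i

theorem sg_apply (i : Fin n) (ζ : ℂ) : sg i ζ = Pi.single i ζ := rfl

theorem sg_same (i : Fin n) (ζ : ℂ) : sg i ζ i = ζ := by simp [sg_apply]

theorem sg_ne {i j : Fin n} (h : j ≠ i) (ζ : ℂ) : sg i ζ j = 0 := by
  simp [sg_apply, h]

theorem norm_coord (z : ℂ) {r : ℝ} (h1 : |z.re| ≤ r) (h2 : |z.im| ≤ r) : ‖z‖ ≤ 2 * r := by
  have := Complex.norm_le_abs_re_add_abs_im z
  linarith

theorem isClosed_Qc (r : ℝ) : IsClosed (Qc n r) := by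
  have : Qc n r = ⋂ j : Fin n, {z : EC n | |(z j).re| ≤ r ∧ |(z j).im| ≤ r} := by
    ext z; simp [Qc]
  rw [this]
  refine isClosed_iInter fun j => ?_
  refine IsClosed.and ?_ ?_
  · exact isClosed_le (by fun_prop) continuous_const
  · exact isClosed_le (by fun_prop) continuous_const

theorem isOpen_Qo (r : ℝ) : IsOpen (Qo n r) := by
  have : Qo n r = ⋂ j : Fin n, {z : EC n | |(z j).re| < r ∧ |(z j).im| < r} := by
    ext z; simp [Qo]
  rw [this]
  refine isOpen_iInter_of_finite fun j => ?_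
  refine IsOpen.and ?_ ?_
  · exact isOpen_lt (by fun_prop) continuous_const
  · exact isOpen_lt (by fun_prop) continuous_const

theorem Qc_sub_Qo {r R : ℝ} (h : r < R) : Qc n r ⊆ Qo n R :=
  fun _ hz j => ⟨(hz j).1.trans_lt h, (hz j).2.trans_lt h⟩

theorem Qo_sub_Qc (r : ℝ) : Qo n r ⊆ Qc n r :=
  fun _ hz j => ⟨(hz j).1.le, (hz j).2.le⟩

/-- functions which are zero if the coordinate `i` is large -/
def Van {E : Type*} [Zero E] (i : Fin n) (ρ : ℝ) (G : EC n → E) : Prop :=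
  ∀ w : EC n, ρ < ‖w i‖ → G w = 0

theorem van_of_Qc {E : Type*} [Zero E] {G : EC n → E} {r : ℝ} (h : ∀ z, z ∉ Qc n r → G z = 0)
    (i : Fin n) : Van i (2 * r) G := by
  intro w hw
  apply h
  intro hw'
  exact absurd (norm_coord _ (hw' i).1 (hw' i).2) (not_le.2 hw)

theorem int_aux {E : Type*} [NormedAddCommGroup E] [NormedSpace ℝ E] [NormedSpace ℂ E]
    {G : EC n → E} (hG : Continuous G) {i : Fin n} {ρ : ℝ} (hρ : Van i ρ G) (z : EC n) :
    Integrable (fun ζ : ℂ => ζ⁻¹ • G (z - sg i ζ)) := by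
  have hc : Continuous fun ζ : ℂ => G (z - sg i ζ) := by
    exact hG.comp (continuous_const.sub (sg i).continuous)
  have hz : ∀ ζ : ℂ, ζ ∉ closedBall (z i) ρ → G (z - sg i ζ) = 0 := by
    intro ζ hζ
    apply hρ
    rw [mem_closedBall, not_le, dist_comm, dist_eq_norm] at hζ
    rw [Pi.sub_apply, sg_same]; exact hζ
  have hcs : HasCompactSupport fun ζ : ℂ => G (z - sg i ζ) :=
    HasCompactSupport.intro (isCompact_closedBall _ _) hz
  obtain ⟨M, hM⟩ := hc.bounded_above_of_compact_support hcs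
  have hK : IntegrableOn (fun ζ : ℂ => ζ⁻¹) (closedBall (z i) ρ) :=
    locInt_inv.integrableOn_isCompact (isCompact_closedBall _ _)
  have hb : Integrable (fun ζ : ℂ => M * ‖(closedBall (z i) ρ).indicator (fun ζ : ℂ => ζ⁻¹) ζ‖) := by
    refine Integrable.const_mul ?_ M
    exact (hK.integrable_indicator isClosed_closedBall.measurableSet).norm
  refine hb.mono' ?_ (Eventually.of_forall fun ζ => ?_)
  · exact (measurable_inv.aestronglyMeasurable).smul hc.aestronglyMeasurable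
  · rw [norm_smul]
    by_cases hζ : ζ ∈ closedBall (z i) ρ
    · rw [Set.indicator_of_mem hζ, mul_comm]
      exact mul_le_mul_of_nonneg_right (hM ζ) (norm_nonneg _)
    · rw [hz ζ hζ, norm_zero, mul_zero]
      have : 0 ≤ M := (norm_nonneg _).trans (hM 0)
      positivity

/-- the Cauchy transform in the coordinate `i` -/
def CT (i : Fin n) (θ : EC n → ℂ) (z : EC n) : ℂ := ∫ ζ : ℂ, ζ⁻¹ * θ (z - sg i ζ)

theorem van_fderiv {θ : EC n → ℂ} {i : Fin n} {ρ : ℝ} (hρ : Van i ρ θ) :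
    Van i ρ (fderiv ℝ θ) := by
  intro w hw
  have h1 : θ =ᶠ[𝓝 w] fun _ => 0 := by
    have : IsOpen {w : EC n | ρ < ‖w i‖} := isOpen_lt continuous_const (by fun_prop)
    filter_upwards [this.mem_nhds hw] with w' hw'
    exact hρ w' hw'
  rw [h1.fderiv_eq]; simp

theorem hasFDerivAt_CT {θ : EC n → ℂ} (hθ : ContDiff ℝ 1 θ) (hc : HasCompactSupport θ)
    {i : Fin n} {ρ : ℝ} (hρ : Van i ρ θ) (z : EC n) :
    HasFDerivAt (CT i θ) (∫ ζ : ℂ, ζ⁻¹ • fderiv ℝ θ (z - sg i ζ)) z := by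
  have hdc : Continuous (fderiv ℝ θ) := hθ.continuous_fderiv (by norm_num)
  obtain ⟨M, hM⟩ := hdc.bounded_above_of_compact_support (hc.fderiv (𝕜 := ℝ))
  have hM0 : 0 ≤ M := (norm_nonneg _).trans (hM 0)
  have hK : IntegrableOn (fun ζ : ℂ => ζ⁻¹) (closedBall (0 : ℂ) (‖z‖ + 1 + ρ)) :=
    locInt_inv.integrableOn_isCompact (isCompact_closedBall _ _)
  have hb : Integrable (fun ζ : ℂ =>
      M * ‖(closedBall (0 : ℂ) (‖z‖ + 1 + ρ)).indicator (fun ζ : ℂ => ζ⁻¹) ζ‖) := by
    refine Integrable.const_mul ?_ M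
    exact (hK.integrable_indicator isClosed_closedBall.measurableSet).norm
  refine hasFDerivAt_integral_of_dominated_of_fderiv_le (𝕜 := ℝ) (s := ball z 1)
    (F := fun z ζ => ζ⁻¹ * θ (z - sg i ζ)) (F' := fun z ζ => ζ⁻¹ • fderiv ℝ θ (z - sg i ζ))
    (ball_mem_nhds z one_pos) ?_ ?_ ?_ ?_ hb ?_
  · refine Eventually.of_forall fun z' => ?_
    exact (int_aux hθ.continuous hρ z').aestronglyMeasurable
  · exact int_aux hθ.continuous hρ z
  · exact (int_aux hdc (van_fderiv hρ) z).aestronglyMeasurable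
  · refine Eventually.of_forall fun ζ z' hz' => ?_
    rw [norm_smul]
    by_cases hζ : ζ ∈ closedBall (0 : ℂ) (‖z‖ + 1 + ρ)
    · rw [Set.indicator_of_mem hζ, mul_comm]
      exact mul_le_mul_of_nonneg_right (hM _) (norm_nonneg _)
    · have h1 : fderiv ℝ θ (z' - sg i ζ) = 0 := by
        apply van_fderiv hρ
        rw [Pi.sub_apply, sg_same]
        rw [mem_closedBall, not_le, dist_zero_right] at hζ
        rw [mem_ball, dist_eq_norm] at hz'
        have h2 : ‖z'‖ ≤ ‖z' - z‖ + ‖z‖ := by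
          have := norm_add_le (z' - z) z
          rwa [sub_add_cancel] at this
        have h3 : ‖z' i‖ ≤ ‖z'‖ := norm_le_pi_norm z' i
        have h4 : ‖ζ‖ ≤ ‖z' i - ζ‖ + ‖z' i‖ := by
          have := norm_sub_le (z' i) (z' i - ζ)
          rw [sub_sub_cancel] at this
          linarith
        linarith
      rw [h1, norm_zero, mul_zero]
      positivity
  · refine Eventually.of_forall fun ζ z' _ => ?_
    have h1 : HasFDerivAt θ (fderiv ℝ θ (z' - sg i ζ)) (z' - sg i ζ) :=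
      (hθ.differentiable (by norm_num) _).hasFDerivAt
    have h2 : HasFDerivAt (fun z : EC n => z - sg i ζ) (ContinuousLinearMap.id ℝ (EC n)) z' :=
      (hasFDerivAt_id z').sub_const _
    have h3 := (h1.comp z' h2).const_mul (ζ⁻¹)
    simpa using h3

theorem db_CT {θ : EC n → ℂ} (hθ : ContDiff ℝ 1 θ) (hc : HasCompactSupport θ)
    {i : Fin n} {ρ : ℝ} (hρ : Van i ρ θ) (k : Fin n) (z : EC n) :
    db k (CT i θ) z = ∫ ζ : ℂ, ζ⁻¹ * db k θ (z - sg i ζ) := by
  have hdc : Continuous (fderiv ℝ θ) := hθ.continuous_fderiv (by norm_num)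
  have hI := int_aux hdc (van_fderiv hρ) z
  unfold db
  rw [(hasFDerivAt_CT hθ hc hρ z).fderiv, ContinuousLinearMap.integral_apply hI,
    ContinuousLinearMap.integral_apply hI, ← integral_const_mul, ← integral_add, ← integral_div]
  · refine integral_congr_ae (Eventually.of_forall fun ζ => ?_)
    simp only [_root_.smul_apply, smul_eq_mul]
    ring
  · exact hI.apply_continuousLinearMap _
  · exact (hI.apply_continuousLinearMap _).const_mul _

theorem contDiff_CT {θ : EC n → ℂ} (hθ : ContDiff ℝ ∞ θ) {i : Fin n} {ρ : ℝ} (hρ : Van i ρ θ) :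
    ContDiff ℝ ∞ (CT i θ) := by
  rw [contDiff_iff_contDiffAt]
  intro z₀
  have h := contDiffOn_convolution_right_with_param (𝕜 := ℝ) (μ := (volume : Measure ℂ))
    (n := (⊤ : ℕ∞)) (f := fun ζ : ℂ => ζ⁻¹) (ContinuousLinearMap.mul ℝ ℂ)
    (g := fun (z : EC n) (x : ℂ) => θ (z + sg i x)) (s := ball (0 : EC n) (‖z₀‖ + 1))
    (k := closedBall (0 : ℂ) (‖z₀‖ + 1 + ρ)) isOpen_ball (isCompact_closedBall _ _) ?_ locInt_inv ?_
  · have h1 : ContDiffAt ℝ ∞ (fun q : EC n × ℂ => ((fun ζ : ℂ => ζ⁻¹)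
        ⋆[ContinuousLinearMap.mul ℝ ℂ, volume] (fun x : ℂ => θ (q.1 + sg i x))) q.2) (z₀, 0) := by
      refine h.contDiffAt ((isOpen_ball.prod isOpen_univ).mem_nhds ⟨?_, mem_univ _⟩)
      rw [mem_ball, dist_zero_right]; linarith
    have h2 : ContDiffAt ℝ ∞ (fun z : EC n => (z, (0 : ℂ))) z₀ :=
      contDiffAt_id.prodMk contDiffAt_const
    have h3 := h1.comp z₀ h2
    refine h3.congr_of_eventuallyEq (Eventually.of_forall fun z => ?_)
    show CT i θ z = ∫ t : ℂ, t⁻¹ * θ (z + sg i (0 - t))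
    unfold CT
    refine integral_congr_ae (Eventually.of_forall fun t => ?_)
    show t⁻¹ * θ (z - sg i t) = t⁻¹ * θ (z + sg i (0 - t))
    rw [zero_sub, map_neg, sub_eq_add_neg]
  · intro z x hz hx
    apply hρ
    rw [mem_ball, dist_zero_right] at hz
    rw [mem_closedBall, not_le, dist_zero_right] at hx
    rw [Pi.add_apply, sg_same]
    have h3 : ‖z i‖ ≤ ‖z‖ := norm_le_pi_norm z i
    have h4 : ‖x‖ ≤ ‖z i + x‖ + ‖z i‖ := by
      have := norm_sub_le (z i + x) (z i)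
      rwa [add_sub_cancel_left] at this
    linarith
  · refine ContDiff.contDiffOn ?_
    have : (↿fun (z : EC n) (x : ℂ) => θ (z + sg i x)) = fun q : EC n × ℂ => θ (q.1 + sg i q.2) := rfl
    rw [this]
    exact hθ.comp (contDiff_fst.add ((sg i).contDiff.comp contDiff_snd))

theorem sg_one (i : Fin n) : sg i 1 = ex i := rfl
theorem sg_I (i : Fin n) : sg i Complex.I = ey i := rfl

theorem slice {θ : EC n → ℂ} (hθ : ContDiff ℝ 1 θ) {i : Fin n} {ρ : ℝ} (hρ : Van i ρ θ)
    (z : EC n) : ∫ ζ : ℂ, ζ⁻¹ * db i θ (z - sg i ζ) = Real.pi * θ z := by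
  set ψ : ℂ → ℂ := fun ζ => θ (z - sg i ζ) with hψ
  have h1 : ContDiff ℝ 1 ψ := hθ.comp (contDiff_const.sub (sg i).contDiff)
  have hz : ∀ ζ : ℂ, ζ ∉ closedBall (z i) ρ → ψ ζ = 0 := by
    intro ζ hζ
    apply hρ
    rw [mem_closedBall, not_le, dist_comm, dist_eq_norm] at hζ
    rw [Pi.sub_apply, sg_same]; exact hζ
  have h2 : HasCompactSupport ψ := HasCompactSupport.intro (isCompact_closedBall _ _) hz
  have h3 := pompeiu_zero h1 h2
  have h4 : ∀ ζ, dbar ψ ζ = - db i θ (z - sg i ζ) := by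
    intro ζ
    have h5 : HasFDerivAt ψ ((fderiv ℝ θ (z - sg i ζ)).comp (-(sg i))) ζ := by
      have h6 : HasFDerivAt θ (fderiv ℝ θ (z - sg i ζ)) (z - sg i ζ) :=
        (hθ.differentiable (by norm_num) _).hasFDerivAt
      have h7 : HasFDerivAt (fun ζ : ℂ => z - sg i ζ) (-(sg i)) ζ := by
        have := (hasFDerivAt_const z ζ).sub (sg i).hasFDerivAt
        simpa using this
      exact h6.comp ζ h7
    unfold dbar db
    rw [h5.fderiv]
    simp only [ContinuousLinearMap.comp_apply, _root_.neg_apply, map_neg, sg_one, sg_I]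
    ring
  have h8 : ψ 0 = θ z := by simp [hψ]
  rw [h8] at h3
  have h9 : ∫ ζ : ℂ, ζ⁻¹ * db i θ (z - sg i ζ) = - ∫ ζ : ℂ, dbar ψ ζ * ζ⁻¹ := by
    rw [← integral_neg]
    refine integral_congr_ae (Eventually.of_forall fun ζ => ?_)
    show ζ⁻¹ * db i θ (z - sg i ζ) = - (dbar ψ ζ * ζ⁻¹)
    rw [h4]; ring
  rw [h9, h3]; ring

/-- Liouville on a complex coordinate line -/
theorem liou {f : EC n → ℂ} {j : Fin n} {z : EC n} {ρ : ℝ}
    (hd : ∀ ξ, DifferentiableAt ℝ f (z + sg j ξ)) (h0 : ∀ ξ, db j f (z + sg j ξ) = 0)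
    (hv : ∀ ξ : ℂ, ρ < ‖ξ‖ → f (z + sg j ξ) = 0) : f z = 0 := by
  set g : ℂ → ℂ := fun ξ => f (z + sg j ξ) with hg
  have h1 : ∀ ξ, HasFDerivAt g ((fderiv ℝ f (z + sg j ξ)).comp (sg j)) ξ := by
    intro ξ
    have h7 : HasFDerivAt (fun ζ : ℂ => z + sg j ζ) (sg j) ξ := by
      have := (hasFDerivAt_const z ξ).add (sg j).hasFDerivAt
      simpa using this
    exact (hd ξ).hasFDerivAt.comp ξ h7
  have h2 : Differentiable ℂ g := by
    intro ξ
    rw [differentiableAt_complex_iff_differentiableAt_real]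
    refine ⟨(h1 ξ).differentiableAt, ?_⟩
    rw [(h1 ξ).fderiv]
    simp only [ContinuousLinearMap.comp_apply, sg_one, sg_I, smul_eq_mul]
    have h3 := h0 ξ
    unfold db at h3
    have h4 : fderiv ℝ f (z + sg j ξ) (ex j) + Complex.I * fderiv ℝ f (z + sg j ξ) (ey j) = 0 := by
      have := (div_eq_zero_iff.1 h3).resolve_right (by norm_num)
      exact this
    have h5 := congrArg (fun x => Complex.I * x) h4
    simp only [mul_add, mul_zero, ← mul_assoc, Complex.I_mul_I] at h5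
    linear_combination -h5
  have h3 : AnalyticOnNhd ℂ g univ := fun ξ _ => h2.analyticAt ξ
  have h4 : g =ᶠ[𝓝 ((|ρ| + 1 : ℝ) : ℂ)] 0 := by
    have : IsOpen {ξ : ℂ | ρ < ‖ξ‖} := isOpen_lt continuous_const continuous_norm
    filter_upwards [this.mem_nhds (show ρ < ‖((|ρ| + 1 : ℝ) : ℂ)‖ by
      rw [Complex.norm_real, Real.norm_of_nonneg (by positivity)]
      have := le_abs_self ρ
      linarith)] with ξ hξ
    exact hv ξ hξ
  have h5 := h3.eqOn_zero_of_preconnected_of_eventuallyEq_zero isPreconnected_univ (mem_univ _) h4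
  have h6 := h5 (mem_univ (0 : ℂ))
  simpa [hg] using h6

theorem hcs_of_Qc {E : Type*} [NormedAddCommGroup E] {G : EC n → E} {r : ℝ}
    (h : ∀ z, z ∉ Qc n r → G z = 0) : HasCompactSupport G := by
  refine HasCompactSupport.intro (isCompact_closedBall (0 : EC n) (2 * |r|)) fun z hz => ?_
  apply h
  intro hz'
  apply hz
  rw [mem_closedBall, dist_zero_right]
  refine (pi_norm_le_iff_of_nonneg (by positivity)).2 fun j => ?_
  have h1 := norm_coord _ (hz' j).1 (hz' j).2
  have h2 := le_abs_self r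
  linarith

/-- PART S_DBC -/
theorem s_DBC : S_DBC := by
  intro n hn r hr θ hθ h0 hcl
  have hn0 : 0 < n := by omega
  set i : Fin n := ⟨0, hn0⟩ with hi
  set m : Fin n := ⟨1, by omega⟩ with hm
  have him : m ≠ i := by
    intro h; rw [hm, hi, Fin.mk.injEq] at h; omega
  have hθ1 : ∀ k, ContDiff ℝ 1 (θ k) := fun k => (hθ k).of_le (by exact_mod_cast le_top)
  have hF := contDiff_CT (hθ i) (van_of_Qc (h0 i) i)
  have hdb : ∀ k z, db k (fun z => (Real.pi : ℂ)⁻¹ * CT i (θ i) z) z = θ k z := by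
    intro k z
    have h1 : db k (fun z => (Real.pi : ℂ)⁻¹ * CT i (θ i) z) z =
        (Real.pi : ℂ)⁻¹ * db k (CT i (θ i)) z := by
      have h2 : fderiv ℝ (fun z => (Real.pi : ℂ)⁻¹ * CT i (θ i) z) z =
          (Real.pi : ℂ)⁻¹ • fderiv ℝ (CT i (θ i)) z := by
        have h3 : HasFDerivAt (CT i (θ i)) (fderiv ℝ (CT i (θ i)) z) z :=
          (hF.differentiable (by norm_num) z).hasFDerivAt
        exact (h3.const_mul _).fderiv
      unfold db
      rw [h2]
      simp only [_root_.smul_apply, smul_eq_mul]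
      ring
    rw [h1, db_CT (hθ1 i) (hcs_of_Qc (h0 i)) (van_of_Qc (h0 i) i)]
    have h4 : ∀ ζ : ℂ, ζ⁻¹ * db k (θ i) (z - sg i ζ) = ζ⁻¹ * db i (θ k) (z - sg i ζ) := by
      intro ζ; rw [hcl]
    simp_rw [h4]
    rw [slice (hθ1 k) (van_of_Qc (h0 k) i), ← mul_assoc, inv_mul_cancel₀, one_mul]
    exact_mod_cast Real.pi_ne_zero
  have hw : ContDiff ℝ ∞ (fun z => (Real.pi : ℂ)⁻¹ * CT i (θ i) z) := contDiff_const.mul hF
  refine ⟨fun z => (Real.pi : ℂ)⁻¹ * CT i (θ i) z, hw, ?_, hdb⟩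
  -- the support
  have hA : ∀ z : EC n, ∀ j, j ≠ i → ¬ (|(z j).re| ≤ r ∧ |(z j).im| ≤ r) →
      (Real.pi : ℂ)⁻¹ * CT i (θ i) z = 0 := by
    intro z j hj hzj
    have h1 : CT i (θ i) z = 0 := by
      unfold CT
      have h2 : ∀ ζ : ℂ, ζ⁻¹ * θ i (z - sg i ζ) = 0 := by
        intro ζ
        rw [h0 i, mul_zero]
        intro h3
        have h4 := h3 j
        rw [Pi.sub_apply, sg_ne hj, sub_zero] at h4
        exact hzj h4
      simp_rw [h2]; simp
    rw [h1, mul_zero]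
  intro z hz
  by_cases hex : ∃ j, j ≠ i ∧ ¬ (|(z j).re| ≤ r ∧ |(z j).im| ≤ r)
  · obtain ⟨j, hj, hzj⟩ := hex
    exact hA z j hj hzj
  · push Not at hex
    have hzi : ¬ (|(z i).re| ≤ r ∧ |(z i).im| ≤ r) := by
      intro h
      apply hz
      intro j
      by_cases hj : j = i
      · rw [hj]; exact h
      · exact hex j hj
    refine liou (f := fun z => (Real.pi : ℂ)⁻¹ * CT i (θ i) z) (j := m) (z := z)
      (ρ := 2 * r + ‖z m‖) (fun ξ => hw.differentiable (by norm_num) _) ?_ ?_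
    · intro ξ
      rw [hdb, h0 m]
      intro h
      have h1 := h i
      rw [Pi.add_apply, sg_ne him.symm, add_zero] at h1
      exact hzi h1
    · intro ξ hξ
      refine hA _ m him ?_
      intro h
      have h1 := norm_coord _ h.1 h.2
      rw [Pi.add_apply, sg_same] at h1
      have h2 : ‖ξ‖ ≤ ‖z m + ξ‖ + ‖z m‖ := by
        have := norm_sub_le (z m + ξ) (z m)
        rwa [add_sub_cancel_left] at this
      linarith

/-- PART S_ID -/
theorem s_ID : S_ID := by
  classical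
  intro n hn r R hr hrR c hc hdb h0 z hz
  set i : Fin n := ⟨0, by omega⟩ with hi
  set f : EC n → ℂ := fun w => if w ∈ Qo n R then c w else 0 with hf
  have hfz : ∀ w, w ∉ Qc n r → f w = 0 := by
    intro w hw
    simp only [hf]
    split_ifs with h
    · exact h0 w ⟨h, hw⟩
    · rfl
  have hin : ∀ w ∈ Qo n R, f =ᶠ[𝓝 w] c := by
    intro w hw
    filter_upwards [(isOpen_Qo R).mem_nhds hw] with w' hw'
    simp only [hf]; rw [if_pos hw']
  have hout : ∀ w, w ∉ Qo n R → f =ᶠ[𝓝 w] fun _ => 0 := by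
    intro w hw
    have hw' : w ∉ Qc n r := fun h => hw (Qc_sub_Qo hrR h)
    filter_upwards [(isClosed_Qc r).isOpen_compl.mem_nhds hw'] with w' hw''
    exact hfz w' hw''
  have hcz : f z = c z := (hin z hz).eq_of_nhds
  rw [← hcz]
  refine liou (f := f) (j := i) (z := z) (ρ := 2 * r + ‖z i‖) ?_ ?_ ?_
  · intro ξ
    by_cases h : z + sg i ξ ∈ Qo n R
    · refine ((hc.contDiffAt ((isOpen_Qo R).mem_nhds h)).differentiableAt
        (by norm_num)).congr_of_eventuallyEq (hin _ h)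
    · exact (differentiableAt_const (c := (0 : ℂ))).congr_of_eventuallyEq (hout _ h)
  · intro ξ
    by_cases h : z + sg i ξ ∈ Qo n R
    · have h1 : db i f (z + sg i ξ) = db i c (z + sg i ξ) := by
        unfold db; rw [(hin _ h).fderiv_eq]
      rw [h1]; exact hdb i _ h
    · unfold db; rw [(hout _ h).fderiv_eq]; simp
  · intro ξ hξ
    apply hfz
    intro h
    have h1 := norm_coord _ (h i).1 (h i).2
    rw [Pi.add_apply, sg_same] at h1
    have h2 : ‖ξ‖ ≤ ‖z i + ξ‖ + ‖z i‖ := by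
      have := norm_sub_le (z i + ξ) (z i)
      rwa [add_sub_cancel_left] at this
    linarith

end Pool.Agent.L7h26.RS
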