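import Pool.Agent.L7h26.RS.Dbc

set_option autoImplicit false

/-!
Hartogs-Ehrenpreis extension (part S_EH of project RS of helper17).
-/

open Set Filter Topology MeasureTheory Metric
open scoped ContDiff

noncomputable section

namespace Pool.Agent.L7h26.RS

open Pool.Agent.L7h17.RS

variable {n : ℕ}

theorem db_sub {f g : EC n → ℂ} {z : EC n} (hf : DifferentiableAt ℝ f z)
    (hg : DifferentiableAt ℝ g z) (k : Fin n) :
    db k (fun z => f z - g z) z = db k f z - db k g z := by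
  have h : fderiv ℝ (fun z => f z - g z) z = fderiv ℝ f z - fderiv ℝ g z :=
    (hf.hasFDerivAt.sub hg.hasFDerivAt).fderiv
  unfold db
  rw [h]
  simp only [_root_.sub_apply]
  ring

theorem db_add {f g : EC n → ℂ} {z : EC n} (hf : DifferentiableAt ℝ f z)
    (hg : DifferentiableAt ℝ g z) (k : Fin n) :
    db k (fun z => f z + g z) z = db k f z + db k g z := by
  have h : fderiv ℝ (fun z => f z + g z) z = fderiv ℝ f z + fderiv ℝ g z :=
    (hf.hasFDerivAt.add hg.hasFDerivAt).fderiv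
  unfold db
  rw [h]
  simp only [_root_.add_apply]
  ring

theorem db_congr {f g : EC n → ℂ} {z : EC n} (h : f =ᶠ[𝓝 z] g) (k : Fin n) :
    db k f z = db k g z := by
  unfold db; rw [h.fderiv_eq]

theorem db_zero' (k : Fin n) (z : EC n) : db k (fun _ => (0 : ℂ)) z = 0 := by
  unfold db; simp

theorem contDiffAt_db {v : EC n → ℂ} {z : EC n} (hv : ContDiffAt ℝ ∞ v z) (k : Fin n) :
    ContDiffAt ℝ ∞ (db k v) z := by
  have h1 : ContDiffAt ℝ ∞ (fderiv ℝ v) z := hv.fderiv_right (by exact_mod_cast le_refl _)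
  unfold db
  refine ContDiffAt.div_const ?_ 2
  refine ContDiffAt.add ?_ ?_
  · exact h1.clm_apply contDiffAt_const
  · exact contDiffAt_const.mul (h1.clm_apply contDiffAt_const)

theorem db_comm {v : EC n → ℂ} {z : EC n} (hv : ContDiffAt ℝ ∞ v z) (m k : Fin n) :
    db m (db k v) z = db k (db m v) z := by
  have h1 : ContDiffAt ℝ ∞ (fderiv ℝ v) z := hv.fderiv_right (by exact_mod_cast le_refl _)
  have h2 : DifferentiableAt ℝ (fderiv ℝ v) z := h1.differentiableAt (by norm_num)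
  have h3 : ∀ j : Fin n, HasFDerivAt (db j v)
      ((1 / 2 : ℂ) • ((ContinuousLinearMap.apply ℝ ℂ (ex j)).comp (fderiv ℝ (fderiv ℝ v) z) +
        Complex.I • (ContinuousLinearMap.apply ℝ ℂ (ey j)).comp (fderiv ℝ (fderiv ℝ v) z))) z := by
    intro j
    have e1 := ((ContinuousLinearMap.apply ℝ ℂ (ex j)).hasFDerivAt (x := fderiv ℝ v z)).comp z
      h2.hasFDerivAt
    have e2 := ((ContinuousLinearMap.apply ℝ ℂ (ey j)).hasFDerivAt (x := fderiv ℝ v z)).comp z
      h2.hasFDerivAt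
    have e3 := (e1.add (e2.const_mul Complex.I)).const_mul (1 / 2 : ℂ)
    refine e3.congr_of_eventuallyEq (Eventually.of_forall fun w => ?_)
    show db j v w = 1 / 2 * (fderiv ℝ v w (ex j) + Complex.I * fderiv ℝ v w (ey j))
    unfold db
    ring
  have hsym : IsSymmSndFDerivAt ℝ v z := by
    refine hv.isSymmSndFDerivAt ?_
    simp only [minSmoothness_of_isRCLikeNormedField]
    exact WithTop.coe_le_coe.2 (le_top : (2 : ℕ∞) ≤ ⊤)
  have h4 : ∀ x y : EC n, fderiv ℝ (fderiv ℝ v) z x y = fderiv ℝ (fderiv ℝ v) z y x := fun x y =>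
    hsym.eq x y
  have h5 : ∀ a c : Fin n, db a (db c v) z = (fderiv ℝ (fderiv ℝ v) z (ex a) (ex c) +
      Complex.I * fderiv ℝ (fderiv ℝ v) z (ex a) (ey c) +
      Complex.I * (fderiv ℝ (fderiv ℝ v) z (ey a) (ex c) +
        Complex.I * fderiv ℝ (fderiv ℝ v) z (ey a) (ey c))) / 4 := by
    intro a c
    rw [show db a (db c v) z = (fderiv ℝ (db c v) z (ex a) +
      Complex.I * fderiv ℝ (db c v) z (ey a)) / 2 from rfl, (h3 c).fderiv]
    simp only [_root_.smul_apply, _root_.add_apply, ContinuousLinearMap.comp_apply,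
      ContinuousLinearMap.apply_apply, smul_eq_mul]
    ring
  rw [h5, h5, h4 (ex m) (ex k), h4 (ex m) (ey k), h4 (ey m) (ex k), h4 (ey m) (ey k)]
  ring

/-- a one-dimensional cutoff function -/
def gg (r₁ r₂ : ℝ) (t : ℝ) : ℝ := Real.smoothTransition ((r₂ ^ 2 - t ^ 2) / (r₂ ^ 2 - r₁ ^ 2))

theorem gg_smooth (r₁ r₂ : ℝ) : ContDiff ℝ ∞ (gg r₁ r₂) := by
  unfold gg
  refine Real.smoothTransition.contDiff.comp ?_
  exact (contDiff_const.sub (contDiff_id.pow 2)).div_const _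

theorem gg_one {r₁ r₂ t : ℝ} (h1 : 0 < r₁) (h2 : r₁ < r₂) (ht : |t| ≤ r₁) : gg r₁ r₂ t = 1 := by
  unfold gg
  apply Real.smoothTransition.one_of_one_le
  have h3 : 0 < r₂ ^ 2 - r₁ ^ 2 := by nlinarith
  rw [le_div_iff₀ h3, one_mul]
  have : t ^ 2 ≤ r₁ ^ 2 := by
    rw [← sq_abs]; exact pow_le_pow_left₀ (abs_nonneg t) ht 2
  linarith

theorem gg_zero {r₁ r₂ t : ℝ} (h1 : 0 < r₁) (h2 : r₁ < r₂) (ht : r₂ ≤ |t|) : gg r₁ r₂ t = 0 := by
  unfold gg
  apply Real.smoothTransition.zero_of_nonpos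
  have h3 : 0 < r₂ ^ 2 - r₁ ^ 2 := by nlinarith
  apply div_nonpos_of_nonpos_of_nonneg _ h3.le
  have : r₂ ^ 2 ≤ t ^ 2 := by
    rw [← sq_abs t]; exact pow_le_pow_left₀ (by linarith) ht 2
  linarith

/-- the cutoff function -/
def ch (r₁ r₂ : ℝ) (z : EC n) : ℝ := 1 - ∏ j, (gg r₁ r₂ (z j).re * gg r₁ r₂ (z j).im)

theorem ch_smooth (r₁ r₂ : ℝ) : ContDiff ℝ ∞ (ch (n := n) r₁ r₂) := by
  unfold ch
  refine contDiff_const.sub (contDiff_prod fun j _ => ?_)
  have h1 : ContDiff ℝ ∞ fun z : EC n => (z j).re :=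
    Complex.reCLM.contDiff.comp (contDiff_apply ℝ ℂ j)
  have h2 : ContDiff ℝ ∞ fun z : EC n => (z j).im :=
    Complex.imCLM.contDiff.comp (contDiff_apply ℝ ℂ j)
  exact ((gg_smooth r₁ r₂).comp h1).mul ((gg_smooth r₁ r₂).comp h2)

theorem ch_zero {r₁ r₂ : ℝ} (h1 : 0 < r₁) (h2 : r₁ < r₂) {z : EC n} (hz : z ∈ Qc n r₁) :
    ch r₁ r₂ z = 0 := by
  unfold ch
  rw [Finset.prod_eq_one, sub_self]
  intro j _
  rw [gg_one h1 h2 (hz j).1, gg_one h1 h2 (hz j).2, one_mul]

theorem ch_one {r₁ r₂ : ℝ} (h1 : 0 < r₁) (h2 : r₁ < r₂) {z : EC n} (hz : z ∉ Qc n r₂) :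
    ch r₁ r₂ z = 1 := by
  unfold ch
  have h3 : ∃ j, ¬ (|(z j).re| ≤ r₂ ∧ |(z j).im| ≤ r₂) := by
    by_contra h
    push Not at h
    exact hz h
  obtain ⟨j, hj⟩ := h3
  rw [Finset.prod_eq_zero (Finset.mem_univ j), sub_zero]
  rw [not_and_or, not_le, not_le] at hj
  rcases hj with h | h
  · rw [gg_zero h1 h2 h.le, zero_mul]
  · rw [gg_zero h1 h2 h.le, mul_zero]

/-- PART S_EH -/
theorem s_EH : S_EH := by
  classical
  intro n hn r r' R hr hrr hrR om b hom hcl hb hdb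
  set r₁ : ℝ := (r + r') / 2 with hr₁
  have a1 : r < r₁ := by rw [hr₁]; linarith
  have a2 : r₁ < r' := by rw [hr₁]; linarith
  have a0 : 0 < r₁ := hr.trans a1
  set v : EC n → ℂ := fun z => if z ∈ Qc n r then 0 else (ch r₁ r' z : ℂ) * b z with hv
  -- near the points of the small cube
  have v1 : ∀ z ∈ Qo n r₁, v =ᶠ[𝓝 z] fun _ => 0 := by
    intro z hz
    filter_upwards [(isOpen_Qo r₁).mem_nhds hz] with w hw
    simp only [hv]
    split_ifs with h
    · rfl
    · rw [ch_zero a0 a2 (Qo_sub_Qc r₁ hw)]; simp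
  have v2 : ∀ z, z ∉ Qc n r → v =ᶠ[𝓝 z] fun z => (ch r₁ r' z : ℂ) * b z := by
    intro z hz
    filter_upwards [(isClosed_Qc r).isOpen_compl.mem_nhds hz] with w hw
    simp only [hv]; rw [if_neg hw]
  have vs : ∀ z ∈ Qo n R, ContDiffAt ℝ ∞ v z := by
    intro z hz
    by_cases h : z ∈ Qo n r₁
    · exact contDiffAt_const.congr_of_eventuallyEq (v1 z h)
    · have h' : z ∉ Qc n r := fun h'' => h (Qc_sub_Qo a1 h'')
      refine ContDiffAt.congr_of_eventuallyEq ?_ (v2 z h')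
      have hop : IsOpen (Qo n R \ Qc n r) := (isOpen_Qo R).sdiff (isClosed_Qc r)
      have hb' : ContDiffAt ℝ ∞ b z := hb.contDiffAt (hop.mem_nhds ⟨hz, h'⟩)
      exact ((Complex.ofRealCLM.contDiff.comp (ch_smooth r₁ r')).contDiffAt).mul hb'
  have vout : ∀ z, z ∉ Qc n r' → v =ᶠ[𝓝 z] b := by
    intro z hz
    filter_upwards [(isClosed_Qc r').isOpen_compl.mem_nhds hz] with w hw
    have hw' : w ∉ Qc n r := fun h => hw fun j => ⟨(h j).1.trans hrr.le, (h j).2.trans hrr.le⟩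
    simp only [hv]; rw [if_neg hw', ch_one a0 a2 hw]; simp
  set θ : Fin n → EC n → ℂ := fun k z => if z ∈ Qo n R then om k z - db k v z else 0 with hθ
  have t1 : ∀ k, ∀ z ∈ Qo n R, θ k =ᶠ[𝓝 z] fun z => om k z - db k v z := by
    intro k z hz
    filter_upwards [(isOpen_Qo R).mem_nhds hz] with w hw
    simp only [hθ]; rw [if_pos hw]
  have t0 : ∀ k, ∀ z, z ∉ Qc n r' → θ k z = 0 := by
    intro k z hz
    simp only [hθ]
    split_ifs with h
    · have hz' : z ∉ Qc n r := fun h => hz fun j => ⟨(h j).1.trans hrr.le, (h j).2.trans hrr.le⟩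
      rw [db_congr (vout z hz), hdb k z ⟨h, hz'⟩, sub_self]
    · rfl
  have t2 : ∀ k, ∀ z, z ∉ Qo n R → θ k =ᶠ[𝓝 z] fun _ => 0 := by
    intro k z hz
    have hz' : z ∉ Qc n r' := fun h => hz (Qc_sub_Qo hrR h)
    filter_upwards [(isClosed_Qc r').isOpen_compl.mem_nhds hz'] with w hw
    exact t0 k w hw
  have oms : ∀ k, ∀ z ∈ Qo n R, ContDiffAt ℝ ∞ (om k) z := fun k z hz =>
    (hom k).contDiffAt ((isOpen_Qo R).mem_nhds hz)
  have ts : ∀ k, ContDiff ℝ ∞ (θ k) := by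
    intro k
    rw [contDiff_iff_contDiffAt]
    intro z
    by_cases hz : z ∈ Qo n R
    · exact ((oms k z hz).sub (contDiffAt_db (vs z hz) k)).congr_of_eventuallyEq (t1 k z hz)
    · exact contDiffAt_const.congr_of_eventuallyEq (t2 k z hz)
  have tcl : ∀ k m z, db m (θ k) z = db k (θ m) z := by
    intro k m z
    by_cases hz : z ∈ Qo n R
    · rw [db_congr (t1 k z hz), db_congr (t1 m z hz),
        db_sub ((oms k z hz).differentiableAt (by norm_num))
          ((contDiffAt_db (vs z hz) k).differentiableAt (by norm_num)),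
        db_sub ((oms m z hz).differentiableAt (by norm_num))
          ((contDiffAt_db (vs z hz) m).differentiableAt (by norm_num)),
        hcl k m z hz, db_comm (vs z hz) m k]
    · rw [db_congr (t2 k z hz), db_congr (t2 m z hz), db_zero', db_zero']
  obtain ⟨w, hw1, hw2, hw3⟩ := s_DBC n hn r' (hr.trans hrr) θ ts t0 tcl
  refine ⟨fun z => v z + w z, ?_, ?_, ?_⟩
  · intro z hz
    exact ((vs z hz).add hw1.contDiffAt).contDiffWithinAt
  · intro k z hz
    rw [db_add ((vs z hz).differentiableAt (by norm_num))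
      (hw1.differentiable (by norm_num) z), hw3, (t1 k z hz).eq_of_nhds]
    ring
  · intro z hz
    show v z + w z = b z
    rw [hw2 z hz.2, add_zero]
    exact (vout z hz.2).eq_of_nhds

end Pool.Agent.L7h26.RS
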